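import Mathlib

/-!
# The conjecture of Gross and Deligne
-/

set_option autoImplicit false

open scoped Classical

namespace Pool.Agent.V2450.GD

/-- The admissible triples for a fixed abelian number field `F` with the Galois group `G`, their
weights, Hodge types and periods, and the products of gamma values. -/
structure Theory (G Q : Type) [CommGroup G] [CommGroup Q] where
  /-- the complex conjugation -/
  c : G
  /-- the class of `2πi` -/
  two : Q
  /-- the admissible triples -/
  Tr : Type
  /-- the weight -/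
  w : Tr → ℕ
  /-- the Hodge type -/
  p : Tr → G → ℤ
  /-- the periods -/
  P : Tr → G → Q
  /-- the products of gamma values which belong to a Hodge type -/
  g : (G → ℤ) → G → Q

variable {G Q : Type} [CommGroup G] [CommGroup Q]

/-- The Hodge types of weight `m`. -/
def Balanced (D : Theory G Q) (m : ℤ) (p : G → ℤ) : Prop := ∀ σ, p σ + p (D.c * σ) = m

/-- The known facts. -/
structure IsKnown (D : Theory G Q) : Prop where
  sq : D.c * D.c = 1
  torsionFree : ∀ x y : Q, x * x = y * y → x = y
  balanced : ∀ t, Balanced D (D.w t) (D.p t)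
  nonneg : ∀ t σ, 0 ≤ D.p t σ
  polarization : ∀ t σ, D.P t σ * D.P t (D.c * σ) = D.two ^ D.w t
  gammaAdd : ∀ (m m' : ℤ) (p p' : G → ℤ), Balanced D m p → Balanced D m' p' → ∀ σ,
    D.g (p + p') σ = D.g p σ * D.g p' σ
  gammaConst : ∀ (n : ℤ) (σ : G), D.g (fun _ => n) σ = D.two ^ n
  gammaConj : ∀ (m : ℤ) (p : G → ℤ), Balanced D m p → ∀ σ,
    D.g p σ * D.g p (D.c * σ) = D.two ^ m
  anderson : D.c ≠ 1 → ∀ φ : G → ℤ, (∀ σ, φ σ = 0 ∨ φ σ = 1) → Balanced D 1 φ →
    ∃ t, D.w t = 1 ∧ D.p t = φ ∧ ∀ σ, D.P t σ = D.g φ σ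
  tensor : ∀ t t', ∃ s, D.w s = D.w t + D.w t' ∧ D.p s = D.p t + D.p t' ∧
    ∀ σ, D.P s σ = D.P t σ * D.P t' σ

/-- The conjecture of Gross and Deligne for the triple `t` and the embedding `σ`. -/
def Holds (D : Theory G Q) (t : D.Tr) (σ : G) : Prop := D.P t σ = D.g (D.p t) σ

/-- The Hodge type is constant: all the elements are Hodge classes. -/
def Pure (D : Theory G Q) (t : D.Tr) : Prop := ∀ σ τ, D.p t σ = D.p t τ

variable {D : Theory G Q}

/-- The totally real case. -/
theorem holds_of_real (hD : IsKnown D) (hc : D.c = 1) (t : D.Tr) (σ : G) : Holds D t σ := by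
  have h1 := hD.balanced t
  have h2 : ∀ τ, 2 * D.p t τ = D.w t := by
    intro τ
    have := h1 τ
    rw [hc, one_mul] at this
    linarith
  have h3 : D.p t = fun _ => D.p t σ := by
    ext τ
    have := h2 τ
    have := h2 σ
    omega
  unfold Holds
  rw [h3, hD.gammaConst]
  apply hD.torsionFree
  have h4 := hD.polarization t σ
  rw [hc, one_mul] at h4
  rw [h4, ← zpow_add, ← zpow_natCast]
  congr 1
  have := h2 σ
  omega

/-- The conjecture for `σ` and for the conjugate embedding. -/
theorem holds_conj (hD : IsKnown D) (t : D.Tr) (σ : G) : Holds D t σ ↔ Holds D t (D.c * σ) := by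
  have h1 := hD.polarization t σ
  have h2 := hD.gammaConj _ _ (hD.balanced t) σ
  rw [zpow_natCast] at h2
  unfold Holds
  constructor
  · intro h
    rw [h, ← h2] at h1
    exact mul_left_cancel h1
  · intro h
    rw [h, ← h2] at h1
    exact mul_right_cancel h1

/-- Sums of CM types. -/
lemma exists_types (hD : IsKnown D) (hc : D.c ≠ 1) (m : ℕ) : ∀ q : G → ℤ, Balanced D m q →
    (∀ σ, 0 ≤ q σ) → ∀ t : D.Tr, ∃ s : D.Tr, D.w s = D.w t + m ∧ D.p s = D.p t + q ∧
      ∀ σ, D.P s σ = D.P t σ * D.g q σ := by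
  obtain ⟨R, hR⟩ : ∃ R : Set G, ∀ σ, D.c * σ ∈ R ↔ σ ∉ R := by
    obtain ⟨r⟩ : Nonempty (LinearOrder G) := ⟨linearOrderOfSTO (WellOrderingRel (α := G))⟩
    refine ⟨{σ | r.lt σ (D.c * σ)}, fun σ => ?_⟩
    have hne : D.c * σ ≠ σ := by
      intro h
      exact hc (mul_eq_right.1 h)
    change r.lt (D.c * σ) (D.c * (D.c * σ)) ↔ ¬ r.lt σ (D.c * σ)
    rw [← mul_assoc, hD.sq, one_mul]
    constructor
    · intro h h'
      exact (@lt_asymm G r.toPreorder _ _ h h')
    · intro h
      rcases @lt_trichotomy G r σ (D.c * σ) with h1 | h1 | h1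
      · exact absurd h1 h
      · exact absurd h1.symm hne
      · exact h1
  induction m with
  | zero =>
    intro q hq hq0 t
    have h1 : q = fun _ => 0 := by
      ext σ
      have h2 := hq σ
      have h3 := hq0 σ
      have h4 := hq0 (D.c * σ)
      push_cast at h2
      omega
    refine ⟨t, by simp, ?_, ?_⟩
    · rw [h1]
      ext σ
      simp
    · intro σ
      rw [h1, hD.gammaConst, zpow_zero, mul_one]
  | succ m ih =>
    intro q hq hq0 t
    -- the CM type: on `R` it is `1` where `q` is positive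
    let φ : G → ℤ := fun σ => if σ ∈ R then (if 0 < q σ then 1 else 0)
      else (if 0 < q (D.c * σ) then 0 else 1)
    have hφ01 : ∀ σ, φ σ = 0 ∨ φ σ = 1 := by
      intro σ
      simp only [φ]
      split_ifs <;> simp
    have hφb : Balanced D 1 φ := by
      intro σ
      by_cases hσ : σ ∈ R
      · have h1 : D.c * σ ∉ R := fun h => (hR σ).1 h hσ
        simp only [φ, if_pos hσ, if_neg h1, ← mul_assoc, hD.sq, one_mul]
        split_ifs <;> norm_num
      · have h1 : D.c * σ ∈ R := (hR σ).2 hσ
        simp only [φ, if_neg hσ, if_pos h1]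
        split_ifs <;> norm_num
    have hle : ∀ σ, φ σ ≤ q σ := by
      intro σ
      have h2 := hq σ
      have h3 := hq0 σ
      push_cast at h2
      by_cases hσ : σ ∈ R
      · simp only [φ, if_pos hσ]
        split_ifs <;> omega
      · simp only [φ, if_neg hσ]
        split_ifs <;> omega
    have hq' : Balanced D m (q - φ) := by
      intro σ
      have h1 := hq σ
      have h2 := hφb σ
      simp only [Pi.sub_apply]
      push_cast at h1
      omega
    obtain ⟨a, ha1, ha2, ha3⟩ := hD.anderson hc φ hφ01 hφb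
    obtain ⟨s, hs1, hs2, hs3⟩ := hD.tensor t a
    obtain ⟨s', hs1', hs2', hs3'⟩ := ih (q - φ) hq' (fun σ => by
      simp only [Pi.sub_apply]
      have := hle σ
      omega) s
    refine ⟨s', ?_, ?_, ?_⟩
    · rw [hs1', hs1, ha1]
      ring
    · rw [hs2', hs2, ha2]
      abel
    · intro σ
      have h1 : D.g q σ = D.g φ σ * D.g (q - φ) σ := by
        have := hD.gammaAdd 1 m φ (q - φ) hφb hq' σ
        rwa [add_sub_cancel] at this
      rw [hs3', hs3, ha3, h1, mul_assoc]

/-- For every triple there is a triple of constant type, of the double weight, such that the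
conjectures for the two triples are equivalent. -/
theorem exists_pure (hD : IsKnown D) (hc : D.c ≠ 1) (t : D.Tr) : ∃ s : D.Tr,
    D.w s = 2 * D.w t ∧ (∀ σ, D.p s σ = D.w t) ∧
      ∀ σ, (Holds D t σ ↔ Holds D s σ) ∧ (Holds D t σ ↔ D.P s σ = D.two ^ D.w t) := by
  have hb := hD.balanced t
  let q : G → ℤ := fun σ => D.w t - D.p t σ
  have hq : Balanced D (D.w t) q := by
    intro σ
    have := hb σ
    simp only [q]
    omega
  have hq0 : ∀ σ, 0 ≤ q σ := by
    intro σ
    have h1 := hb σ
    have h2 := hD.nonneg t (D.c * σ)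
    simp only [q]
    omega
  obtain ⟨s, hs1, hs2, hs3⟩ := exists_types hD hc (D.w t) q hq hq0 t
  have hp : D.p s = fun _ => (D.w t : ℤ) := by
    rw [hs2]
    ext σ
    simp only [Pi.add_apply, q]
    ring
  have hg : ∀ σ, D.g (D.p t) σ * D.g q σ = D.two ^ D.w t := by
    intro σ
    rw [← hD.gammaAdd _ _ _ _ hb hq σ]
    have h1 : D.p t + q = fun _ => (D.w t : ℤ) := by
      rw [← hs2, hp]
    rw [h1, hD.gammaConst, zpow_natCast]
  have key : ∀ σ, Holds D t σ ↔ D.P s σ = D.two ^ D.w t := by
    intro σ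
    unfold Holds
    rw [hs3, ← hg σ]
    exact ⟨fun h => by rw [h], fun h => mul_right_cancel h⟩
  refine ⟨s, ?_, fun σ => by rw [hp], fun σ => ⟨?_, key σ⟩⟩
  · rw [hs1]
    ring
  · rw [key σ]
    unfold Holds
    rw [hp, hD.gammaConst, zpow_natCast]

end Pool.Agent.V2450.GD
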